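import Mathlib
import Pool.Agent.Results.MP_a793bb_nt.ExceptionsAtEveryLevel
import Pool.Agent.Results.MP_a793bb_nt.AlmostAllPoints

set_option autoImplicit false

/-!
# The abc inequality over a number field for almost all values of one coordinate

`K` is a number field of degree `d`. The points `P = (a : b : c)` over `K` with `a + b + c = 0` and
`abc ≠ 0` are sorted here by the integral ideal `I = (c) / (a, b, c)` and not by their height or
radical. All points over an ideal `I` have `d h(P) ≥ log N(I)`; there are infinitely many of them.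

For `κ < 37 / 20` and almost all ideals `I` (ordered by the norm) ALL points over `I` with
`d h(P) ≤ κ log N(I)` satisfy `h(P) < rad(P)`, the abc inequality without `ε` and constant. More
generally `rad_T(P) > t h(P) + c₀` if `κ F(t) < 1`, where `F` is the exponent of the starting file
`ExceptionsAtEveryLevel` (`F(t) < 1` for `t < 5 / 3`), and if `k κ F(t) < 1` then this is true for the
points over `𝔪 ^ k` for almost all `𝔪`. The exceptional ideals of norm at most `X` are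
`O (X ^ (κ F(t) + ε))` in number.

For points over `I` of whatever height `d rad_T(P) > κ log N(I)`, `κ < 3 / 2`, is proved for almost
all `I`; the exceptional ideals are `O (X ^ (2 κ / 3 + ε))` in number.

Proof: a point determines its ideal, so the ideals are counted by the exceptional points of height
at most `X ^ (κ / d)`, for which the starting file gives `O (X ^ (κ F(t) + ε))`, or by all points of
radical at most `X ^ (κ / d)`, which are `O (X ^ (2 κ / 3 + ε))` in number by the starting file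
`AlmostAllPoints`; the ideals are counted by Mathlib.
-/

namespace Pool.Agent.Results.MP_a793bb_nt.AlmostAllParts

open NumberField IsDedekindDomain Filter
open scoped nonZeroDivisors
open Pool.Agent.Results.MP_a793bb_nt.ExceptionsAtEveryLevel (height rad F Exceptions)

variable {K : Type} [Field K] [NumberField K]

/-- `I` is the integral ideal `(c) / (a, b, c)` of the point `(a : b : c)` with the coordinates `x`:
its exponent at a prime `v` is `v(c) - min (v(a), v(b), v(c))`. -/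
def IsPart (I : Ideal (𝓞 K)) (x : Fin 3 → K) : Prop :=
  (I : FractionalIdeal (𝓞 K)⁰ K) * (FractionalIdeal.spanSingleton (𝓞 K)⁰ (x 0) +
    FractionalIdeal.spanSingleton (𝓞 K)⁰ (x 1) + FractionalIdeal.spanSingleton (𝓞 K)⁰ (x 2)) =
    FractionalIdeal.spanSingleton (𝓞 K)⁰ (x 2)

/-- `I` is the ideal `(c) / (a, b, c)` of a point `P = (a : b : c)` over `K` with `a + b + c = 0`,
`abc ≠ 0`, `d h(P) ≤ κ log N(I)` and `rad_T(P) ≤ t h(P) + c₀`. -/
def Bad (T : Set (HeightOneSpectrum (𝓞 K))) (t c₀ κ : ℝ) : Set (Ideal (𝓞 K)) :=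
  {I | ∃ x : Fin 3 → K, x 0 + x 1 + x 2 = 0 ∧ x 0 * x 1 * x 2 ≠ 0 ∧ IsPart I x ∧
    (Module.finrank ℚ K : ℝ) * height x ≤ κ * Real.log (Ideal.absNorm I : ℝ) ∧
    rad T x ≤ t * height x + c₀}

/-- `I` is the ideal `(c) / (a, b, c)` of a point `P = (a : b : c)` over `K`, of whatever height, with
`a + b + c = 0`, `abc ≠ 0` and `d rad_T(P) ≤ κ log N(I)`. -/
def LowRadical (T : Set (HeightOneSpectrum (𝓞 K))) (κ : ℝ) : Set (Ideal (𝓞 K)) :=
  {I | ∃ x : Fin 3 → K, x 0 + x 1 + x 2 = 0 ∧ x 0 * x 1 * x 2 ≠ 0 ∧ IsPart I x ∧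
    (Module.finrank ℚ K : ℝ) * rad T x ≤ κ * Real.log (Ideal.absNorm I : ℝ)}

/-- the number of nonzero ideals in `A` of norm at most `X` -/
noncomputable def count (A : Set (Ideal (𝓞 K))) (X : ℝ) : ℕ :=
  {I : Ideal (𝓞 K) | I ∈ A ∧ I ≠ ⊥ ∧ (Ideal.absNorm I : ℝ) ≤ X}.ncard

lemma part_unique {I J : Ideal (𝓞 K)} {x y : Fin 3 → K} (hI : IsPart I x) (hJ : IsPart J y)
    (hy : y 2 ≠ 0) (a : Kˣ) (h : a • y = x) : I = J := by
  have hx : ∀ i, x i = (a : K) * y i := by
    intro i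
    rw [← h]
    rfl
  unfold IsPart at hI hJ
  rw [hx 0, hx 1, hx 2] at hI
  simp only [← FractionalIdeal.spanSingleton_mul_spanSingleton] at hI
  set A := FractionalIdeal.spanSingleton (𝓞 K)⁰ (a : K) with hA
  set Y := FractionalIdeal.spanSingleton (𝓞 K)⁰ (y 0) + FractionalIdeal.spanSingleton (𝓞 K)⁰ (y 1) +
    FractionalIdeal.spanSingleton (𝓞 K)⁰ (y 2) with hY
  have hA0 : A ≠ 0 := by
    rw [hA, FractionalIdeal.spanSingleton_ne_zero_iff]
    exact a.ne_zero
  have h2 : FractionalIdeal.spanSingleton (𝓞 K)⁰ (y 2) ≠ 0 := by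
    rw [FractionalIdeal.spanSingleton_ne_zero_iff]
    exact hy
  have hY0 : Y ≠ 0 := by
    intro h0
    rw [h0, mul_zero] at hJ
    exact h2 hJ.symm
  have e1 : A * ((I : FractionalIdeal (𝓞 K)⁰ K) * Y) = A * FractionalIdeal.spanSingleton (𝓞 K)⁰ (y 2) := by
    rw [← hI, hY]
    ring
  have e2 := mul_left_cancel₀ hA0 e1
  rw [← hJ] at e2
  have e3 := mul_right_cancel₀ hY0 e2
  exact FractionalIdeal.coeIdeal_injective e3

lemma bound (T : Set (HeightOneSpectrum (𝓞 K))) (hT : T.Finite) (t c₀ κ δ : ℝ) (ht0 : 0 < t)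
    (ht3 : t ≤ 3) (hκ : 0 < κ) (hδ : 0 < δ) : ∃ C : ℝ, 0 ≤ C ∧ ∀ X : ℝ, 1 ≤ X →
      (count (Bad T t c₀ κ) X : ℝ) ≤ C * X ^ (κ * F t + δ) := by
  classical
  have hd : (0 : ℝ) < Module.finrank ℚ K := by exact_mod_cast Module.finrank_pos
  set d : ℝ := (Module.finrank ℚ K : ℝ) with hdd
  obtain ⟨C, hC⟩ := Pool.Agent.Results.MP_a793bb_nt.ExceptionsAtEveryLevel.result K T hT t c₀
    (δ * d / κ) ht0 ht3 (by positivity)
  refine ⟨max C 0, le_max_right _ _, fun X hX => ?_⟩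
  have hX0 : 0 < X := by linarith
  set B : ℝ := X ^ (κ / d) with hB
  have hB1 : 1 ≤ B := Real.one_le_rpow hX (by positivity)
  obtain ⟨h1, h2⟩ := hC B hB1
  have hex : ∀ I : Ideal (𝓞 K), ∃ P : Projectivization K (Fin 3 → K), I ∈ Bad T t c₀ κ →
      ∃ (x : Fin 3 → K) (hx : x ≠ 0), P = Projectivization.mk K x hx ∧ x 0 + x 1 + x 2 = 0 ∧
        x 0 * x 1 * x 2 ≠ 0 ∧ IsPart I x ∧ d * height x ≤ κ * Real.log (Ideal.absNorm I : ℝ) ∧
        rad T x ≤ t * height x + c₀ := by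
    intro I
    by_cases hI : I ∈ Bad T t c₀ κ
    · obtain ⟨x, a1, a2, a3, a4, a5⟩ := hI
      have hx : x ≠ 0 := by
        rintro rfl
        simp at a2
      exact ⟨Projectivization.mk K x hx, fun _ => ⟨x, hx, rfl, a1, a2, a3, a4, a5⟩⟩
    · have h0 : (fun _ => 1 : Fin 3 → K) ≠ 0 := by
        intro h
        have := congrFun h 0
        simp at this
      exact ⟨Projectivization.mk K _ h0, fun h => absurd h hI⟩
  choose f hf using hex
  have hle : (count (Bad T t c₀ κ) X : ℝ) ≤ ((Exceptions T t c₀ B).ncard : ℝ) := by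
    unfold count
    have : {I : Ideal (𝓞 K) | I ∈ Bad T t c₀ κ ∧ I ≠ ⊥ ∧ (Ideal.absNorm I : ℝ) ≤ X}.ncard ≤
        (Exceptions T t c₀ B).ncard := by
      refine Set.ncard_le_ncard_of_injOn f ?_ ?_ h1
      · rintro I ⟨hI, hI0, hIX⟩
        obtain ⟨x, hx, b0, b1, b2, b3, b4, b5⟩ := hf I hI
        refine ⟨x, hx, b0, b1, b2, ?_, b5⟩
        have hN : 1 ≤ Ideal.absNorm I := Nat.one_le_iff_ne_zero.mpr (by
          rw [Ne, Ideal.absNorm_eq_zero_iff]
          exact hI0)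
        have hNR : (1 : ℝ) ≤ (Ideal.absNorm I : ℝ) := by exact_mod_cast hN
        have h3 : Real.log (Ideal.absNorm I : ℝ) ≤ Real.log X := Real.log_le_log (by linarith) hIX
        have h4 : height x ≤ κ / d * Real.log X := by
          rw [div_mul_eq_mul_div, le_div_iff₀ hd]
          nlinarith
        calc Real.exp (height x) ≤ Real.exp (κ / d * Real.log X) := Real.exp_le_exp.mpr h4
          _ = B := by rw [hB, Real.rpow_def_of_pos hX0, mul_comm]
      · rintro I ⟨hI, -, -⟩ J ⟨hJ, -, -⟩ hIJ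
        obtain ⟨x, hx, b0, b1, b2, b3, -, -⟩ := hf I hI
        obtain ⟨y, hy, c0, c1, c2, c3, -, -⟩ := hf J hJ
        rw [b0, c0, Projectivization.mk_eq_mk_iff] at hIJ
        obtain ⟨a, ha⟩ := hIJ
        refine part_unique b3 c3 ?_ a ha
        intro h
        rw [h] at c2
        simp at c2
    exact_mod_cast this
  calc (count (Bad T t c₀ κ) X : ℝ) ≤ ((Exceptions T t c₀ B).ncard : ℝ) := hle
    _ ≤ C * B ^ (d * F t + δ * d / κ) := h2
    _ ≤ max C 0 * B ^ (d * F t + δ * d / κ) := by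
        gcongr
        exact le_max_left _ _
    _ = max C 0 * X ^ (κ * F t + δ) := by
        rw [hB, ← Real.rpow_mul hX0.le]
        congr 2
        field_simp

lemma bound_radical (T : Set (HeightOneSpectrum (𝓞 K))) (hT : T.Finite) (κ δ : ℝ)
    (hκ : 0 < κ) (hδ : 0 < δ) : ∃ C : ℝ, 0 ≤ C ∧ ∀ X : ℝ, 1 ≤ X →
      (count (LowRadical T κ) X : ℝ) ≤ C * X ^ (2 * κ / 3 + δ) := by
  classical
  have hd : (0 : ℝ) < Module.finrank ℚ K := by exact_mod_cast Module.finrank_pos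
  set d : ℝ := (Module.finrank ℚ K : ℝ) with hdd
  obtain ⟨C, hC⟩ := ((Pool.Agent.Results.MP_a793bb_nt.AlmostAllPoints.result K T hT).1
    (δ * d / κ) (by positivity)).1
  refine ⟨max C 0, le_max_right _ _, fun X hX => ?_⟩
  have hX0 : 0 < X := by linarith
  set B : ℝ := X ^ (κ / d) with hB
  have hB1 : 1 ≤ B := Real.one_le_rpow hX (by positivity)
  obtain ⟨h1, h2⟩ := hC B hB1
  have hex : ∀ I : Ideal (𝓞 K), ∃ P : Projectivization K (Fin 3 → K), I ∈ LowRadical T κ →
      ∃ (x : Fin 3 → K) (hx : x ≠ 0), P = Projectivization.mk K x hx ∧ x 0 + x 1 + x 2 = 0 ∧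
        x 0 * x 1 * x 2 ≠ 0 ∧ IsPart I x ∧ d * rad T x ≤ κ * Real.log (Ideal.absNorm I : ℝ) := by
    intro I
    by_cases hI : I ∈ LowRadical T κ
    · obtain ⟨x, a1, a2, a3, a4⟩ := hI
      have hx : x ≠ 0 := by
        rintro rfl
        simp at a2
      exact ⟨Projectivization.mk K x hx, fun _ => ⟨x, hx, rfl, a1, a2, a3, a4⟩⟩
    · have h0 : (fun _ => 1 : Fin 3 → K) ≠ 0 := by
        intro h
        have := congrFun h 0
        simp at this
      exact ⟨Projectivization.mk K _ h0, fun h => absurd h hI⟩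
  choose f hf using hex
  have hle : (count (LowRadical T κ) X : ℝ) ≤
      ((Pool.Agent.Results.MP_a793bb_nt.AlmostAllPoints.Points T B).ncard : ℝ) := by
    unfold count
    have : {I : Ideal (𝓞 K) | I ∈ LowRadical T κ ∧ I ≠ ⊥ ∧ (Ideal.absNorm I : ℝ) ≤ X}.ncard ≤
        (Pool.Agent.Results.MP_a793bb_nt.AlmostAllPoints.Points T B).ncard := by
      refine Set.ncard_le_ncard_of_injOn f ?_ ?_ h1
      · rintro I ⟨hI, hI0, hIX⟩
        obtain ⟨x, hx, b0, b1, b2, b3, b4⟩ := hf I hI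
        refine ⟨x, hx, b0, b1, b2, ?_⟩
        have hN : 1 ≤ Ideal.absNorm I := Nat.one_le_iff_ne_zero.mpr (by
          rw [Ne, Ideal.absNorm_eq_zero_iff]
          exact hI0)
        have hNR : (1 : ℝ) ≤ (Ideal.absNorm I : ℝ) := by exact_mod_cast hN
        have h3 : Real.log (Ideal.absNorm I : ℝ) ≤ Real.log X := Real.log_le_log (by linarith) hIX
        have h4 : rad T x ≤ κ / d * Real.log X := by
          rw [div_mul_eq_mul_div, le_div_iff₀ hd]
          nlinarith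
        calc Real.exp (rad T x) ≤ Real.exp (κ / d * Real.log X) := Real.exp_le_exp.mpr h4
          _ = B := by rw [hB, Real.rpow_def_of_pos hX0, mul_comm]
      · rintro I ⟨hI, -, -⟩ J ⟨hJ, -, -⟩ hIJ
        obtain ⟨x, hx, b0, b1, b2, b3, -⟩ := hf I hI
        obtain ⟨y, hy, c0, c1, c2, c3, -⟩ := hf J hJ
        rw [b0, c0, Projectivization.mk_eq_mk_iff] at hIJ
        obtain ⟨a, ha⟩ := hIJ
        refine part_unique b3 c3 ?_ a ha
        intro h
        rw [h] at c2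
        simp at c2
    exact_mod_cast this
  calc (count (LowRadical T κ) X : ℝ) ≤
      ((Pool.Agent.Results.MP_a793bb_nt.AlmostAllPoints.Points T B).ncard : ℝ) := hle
    _ ≤ C * B ^ (d * (2 / 3) + δ * d / κ) := h2
    _ ≤ max C 0 * B ^ (d * (2 / 3) + δ * d / κ) := by
        gcongr
        exact le_max_left _ _
    _ = max C 0 * X ^ (2 * κ / 3 + δ) := by
        rw [hB, ← Real.rpow_mul hX0.le]
        congr 2
        field_simp

lemma pow_inj {I J : Ideal (𝓞 K)} {n : ℕ} (hn : n ≠ 0) (h : I ^ n = J ^ n) : I = J := by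
  have h1 : I ∣ J := (UniqueFactorizationMonoid.pow_dvd_pow_iff_dvd hn).mp (dvd_of_eq h)
  have h2 : J ∣ I := (UniqueFactorizationMonoid.pow_dvd_pow_iff_dvd hn).mp (dvd_of_eq h.symm)
  exact le_antisymm (Ideal.le_of_dvd h2) (Ideal.le_of_dvd h1)

lemma finite_norm_le (X : ℝ) : {I : Ideal (𝓞 K) | (Ideal.absNorm I : ℝ) ≤ X}.Finite := by
  rcases lt_or_ge X 0 with hX | hX
  · refine Set.Finite.subset Set.finite_empty ?_
    intro I hI
    have h1 : (Ideal.absNorm I : ℝ) ≤ X := hI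
    have h2 : (0 : ℝ) ≤ (Ideal.absNorm I : ℝ) := Nat.cast_nonneg _
    linarith
  · refine (Ideal.finite_setOfPred_absNorm_le (S := 𝓞 K) ⌊X⌋₊).subset ?_
    intro I hI
    exact Nat.le_floor hI

lemma finite_count (A : Set (Ideal (𝓞 K))) (X : ℝ) :
    {I : Ideal (𝓞 K) | I ∈ A ∧ I ≠ ⊥ ∧ (Ideal.absNorm I : ℝ) ≤ X}.Finite :=
  (finite_norm_le X).subset fun _ h => h.2.2

/-- The number of nonzero ideals of norm at most `X` is at least `c X`. -/
lemma many_ideals : ∃ c X₀ : ℝ, 0 < c ∧ ∀ X : ℝ, X₀ ≤ X →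
    c * X ≤ count (Set.univ : Set (Ideal (𝓞 K))) X := by
  have h := NumberField.Ideal.tendsto_norm_le_div_atTop K
  set L : ℝ := (2 ^ InfinitePlace.nrRealPlaces K * (2 * Real.pi) ^ InfinitePlace.nrComplexPlaces K *
    Units.regulator K * classNumber K) / (Units.torsionOrder K * Real.sqrt |(discr K : ℝ)|) with hL
  have hL0 : 0 < L := by
    have h1 := Units.regulator_pos K
    have h2 : (0 : ℝ) < classNumber K := by exact_mod_cast classNumber_pos K
    have h3 : (0 : ℝ) < Units.torsionOrder K := by exact_mod_cast Units.torsionOrder_pos K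
    have h4 : (0 : ℝ) < |(discr K : ℝ)| := abs_pos.mpr (by exact_mod_cast discr_ne_zero K)
    have h5 := Real.sqrt_pos.mpr h4
    have h6 := Real.pi_pos
    positivity
  have h1 : ∀ᶠ s : ℝ in atTop, L / 2 < (Nat.card {I : Ideal (𝓞 K) // Ideal.absNorm I ≤ s} : ℝ) / s :=
    h.eventually (lt_mem_nhds (by linarith))
  obtain ⟨X₁, hX₁⟩ := eventually_atTop.mp h1
  refine ⟨L / 4, max (max X₁ 1) (4 / L), by positivity, fun X hX => ?_⟩
  have hXa : X₁ ≤ X := (le_max_left _ _).trans ((le_max_left _ _).trans hX)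
  have hXb : 1 ≤ X := (le_max_right _ _).trans ((le_max_left _ _).trans hX)
  have hXc : 4 / L ≤ X := (le_max_right _ _).trans hX
  have hX0 : 0 < X := by linarith
  have h2 := hX₁ X hXa
  rw [lt_div_iff₀ hX0] at h2
  have h3 : (Nat.card {I : Ideal (𝓞 K) // (Ideal.absNorm I : ℝ) ≤ X}) ≤
      count (Set.univ : Set (Ideal (𝓞 K))) X + 1 := by
    have e : Nat.card {I : Ideal (𝓞 K) // (Ideal.absNorm I : ℝ) ≤ X} =
        {I : Ideal (𝓞 K) | (Ideal.absNorm I : ℝ) ≤ X}.ncard := rfl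
    rw [e]
    have hsub : {I : Ideal (𝓞 K) | (Ideal.absNorm I : ℝ) ≤ X} ⊆
        insert ⊥ {I : Ideal (𝓞 K) | I ∈ (Set.univ : Set (Ideal (𝓞 K))) ∧ I ≠ ⊥ ∧
          (Ideal.absNorm I : ℝ) ≤ X} := by
      intro I hI
      by_cases h0 : I = ⊥
      · exact Or.inl h0
      · exact Or.inr ⟨Set.mem_univ _, h0, hI⟩
    refine (Set.ncard_le_ncard hsub ((finite_count _ _).insert _)).trans ?_
    exact Set.ncard_insert_le _ _
  have h4 : (Nat.card {I : Ideal (𝓞 K) // (Ideal.absNorm I : ℝ) ≤ X} : ℝ) ≤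
      count (Set.univ : Set (Ideal (𝓞 K))) X + 1 := by exact_mod_cast h3
  have h5 : 1 ≤ L / 4 * X := by
    rw [div_le_iff₀ hL0] at hXc
    nlinarith
  nlinarith

lemma powers_of_bound (A : Set (Ideal (𝓞 K))) (e : ℝ) (hA : ∀ δ : ℝ, 0 < δ → ∃ C : ℝ, 0 ≤ C ∧
    ∀ X : ℝ, 1 ≤ X → (count A X : ℝ) ≤ C * X ^ (e + δ)) (k : ℕ) (hk : 1 ≤ k) (h : k * e < 1) :
    Tendsto (fun X : ℝ => (count {I | I ^ k ∈ A} X : ℝ) /
      count (Set.univ : Set (Ideal (𝓞 K))) X) atTop (nhds 0) := by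
  have hk0 : (0 : ℝ) < k := by exact_mod_cast hk
  set δ : ℝ := (1 - k * e) / (2 * k) with hδ
  have hδ0 : 0 < δ := by
    rw [hδ]
    have : 0 < 1 - k * e := by linarith
    positivity
  obtain ⟨C, hC0, hC⟩ := hA δ hδ0
  obtain ⟨c, X₀, hc, hX₀⟩ := many_ideals (K := K)
  set η : ℝ := k * δ with hη
  have hη0 : 0 < η := by positivity
  have hlim : Tendsto (fun X : ℝ => C / c * X ^ (-η)) atTop (nhds 0) := by
    have := (tendsto_rpow_neg_atTop hη0).const_mul (C / c)
    simpa using this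
  refine squeeze_zero' (Eventually.of_forall fun X => by positivity) ?_ hlim
  filter_upwards [eventually_ge_atTop X₀, eventually_ge_atTop 1] with X hX hX1
  have hXpos : 0 < X := by linarith
  have h1 : (count {I : Ideal (𝓞 K) | I ^ k ∈ A} X : ℝ) ≤ count A (X ^ k) := by
    unfold count
    have : {I : Ideal (𝓞 K) | I ∈ {I : Ideal (𝓞 K) | I ^ k ∈ A} ∧ I ≠ ⊥ ∧
        (Ideal.absNorm I : ℝ) ≤ X}.ncard ≤
        {I : Ideal (𝓞 K) | I ∈ A ∧ I ≠ ⊥ ∧ (Ideal.absNorm I : ℝ) ≤ X ^ k}.ncard := by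
      refine Set.ncard_le_ncard_of_injOn (fun I => I ^ k) ?_ ?_ (finite_count _ _)
      · rintro I ⟨hI, hI0, hIX⟩
        refine ⟨hI, ?_, ?_⟩
        · intro h0
          apply hI0
          have : I ^ k = 0 := h0
          exact pow_eq_zero_iff (by omega) |>.mp this
        · rw [map_pow]
          push_cast
          gcongr
      · intro I _ J _ hIJ
        exact pow_inj (by omega) hIJ
    exact_mod_cast this
  have h2 := hC (X ^ k) (one_le_pow₀ hX1)
  have h3 := hX₀ X hX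
  have h4 : (0 : ℝ) < count (Set.univ : Set (Ideal (𝓞 K))) X := lt_of_lt_of_le (by positivity) h3
  rw [div_le_iff₀ h4]
  calc (count {I : Ideal (𝓞 K) | I ^ k ∈ A} X : ℝ)
      ≤ C * (X ^ k) ^ (e + δ) := h1.trans h2
    _ = C / c * X ^ (-η) * (c * X) := by
        have e1 : (X ^ k) ^ (e + δ) = X ^ (-η) * X := by
          rw [← Real.rpow_natCast, ← Real.rpow_mul hXpos.le]
          nth_rewrite 3 [← Real.rpow_one X]
          rw [← Real.rpow_add hXpos]
          congr 1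
          rw [hη, hδ]
          field_simp
          ring
        rw [e1]
        field_simp
    _ ≤ C / c * X ^ (-η) * count (Set.univ : Set (Ideal (𝓞 K))) X :=
        mul_le_mul_of_nonneg_left h3 (by positivity)

lemma powers (T : Set (HeightOneSpectrum (𝓞 K))) (hT : T.Finite) (t c₀ κ : ℝ) (ht0 : 0 < t)
    (ht3 : t ≤ 3) (hκ : 0 < κ) (k : ℕ) (hk : 1 ≤ k) (h : k * (κ * F t) < 1) :
    Tendsto (fun X : ℝ => (count {I | I ^ k ∈ Bad T t c₀ κ} X : ℝ) /
      count (Set.univ : Set (Ideal (𝓞 K))) X) atTop (nhds 0) :=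
  powers_of_bound _ (κ * F t) (fun δ hδ => bound T hT t c₀ κ δ ht0 ht3 hκ hδ) k hk h

/-- `h(P) < rad(P)` for all points `P = (a : b : c)` over `K` with `a + b + c = 0`, `abc ≠ 0`,
`(c) / (a, b, c) = I` and `d h(P) ≤ κ log N(I)`. -/
def StrongAbc (κ : ℝ) (I : Ideal (𝓞 K)) : Prop :=
  ∀ x : Fin 3 → K, x 0 + x 1 + x 2 = 0 → x 0 * x 1 * x 2 ≠ 0 → IsPart I x →
    (Module.finrank ℚ K : ℝ) * height x ≤ κ * Real.log (Ideal.absNorm I : ℝ) → height x < rad ∅ x

/-- **The abc inequality over `K` for almost all values of one coordinate.**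

1. The ideals `I` of norm at most `X` with a point over `I` with `d h ≤ κ log N(I)` and
   `rad_T ≤ t h + c₀` are `O (X ^ (κ F(t) + δ))` in number.
2. If `k κ F(t) < 1`, then for almost all `𝔪` there is no such point over `𝔪 ^ k`.
3. For `κ < 37 / 20` almost all ideals `I` satisfy `StrongAbc κ I`.
4. The ideals `I` of norm at most `X` with a point over `I`, of whatever height, with
   `d rad_T ≤ κ log N(I)` are `O (X ^ (2 κ / 3 + δ))` in number; if `2 k κ < 3`, then for almost all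
   `𝔪` there is no such point over `𝔪 ^ k`. -/
theorem result : ∀ (K : Type) [Field K] [NumberField K],
    (∀ T : Set (HeightOneSpectrum (𝓞 K)), T.Finite → ∀ t c₀ κ δ : ℝ, 0 < t → t ≤ 3 → 0 < κ → 0 < δ →
      ∃ C : ℝ, ∀ X : ℝ, 1 ≤ X → (count (Bad T t c₀ κ) X : ℝ) ≤ C * X ^ (κ * F t + δ)) ∧
    (∀ T : Set (HeightOneSpectrum (𝓞 K)), T.Finite → ∀ t c₀ κ : ℝ, 0 < t → t ≤ 3 → 0 < κ →
      ∀ k : ℕ, 1 ≤ k → k * (κ * F t) < 1 →
        Tendsto (fun X : ℝ => (count {I | I ^ k ∈ Bad T t c₀ κ} X : ℝ) /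
          count (Set.univ : Set (Ideal (𝓞 K))) X) atTop (nhds 0)) ∧
    (∀ κ : ℝ, 0 < κ → κ < 37 / 20 →
      Tendsto (fun X : ℝ => (count {I : Ideal (𝓞 K) | ¬ StrongAbc κ I} X : ℝ) /
        count (Set.univ : Set (Ideal (𝓞 K))) X) atTop (nhds 0)) ∧
    (∀ T : Set (HeightOneSpectrum (𝓞 K)), T.Finite → ∀ κ : ℝ, 0 < κ →
      (∀ δ : ℝ, 0 < δ → ∃ C : ℝ, ∀ X : ℝ, 1 ≤ X →
        (count (LowRadical T κ) X : ℝ) ≤ C * X ^ (2 * κ / 3 + δ)) ∧
      ∀ k : ℕ, 1 ≤ k → 2 * k * κ < 3 →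
        Tendsto (fun X : ℝ => (count {I | I ^ k ∈ LowRadical T κ} X : ℝ) /
          count (Set.univ : Set (Ideal (𝓞 K))) X) atTop (nhds 0)) := by
  intro K _ _
  refine ⟨fun T hT t c₀ κ δ h1 h2 h3 h4 => ?_, fun T hT t c₀ κ h1 h2 h3 k hk h => ?_,
    fun κ hκ h => ?_, fun T hT κ hκ => ⟨fun δ hδ => ?_, fun k hk h => ?_⟩⟩
  · obtain ⟨C, -, hC⟩ := bound T hT t c₀ κ δ h1 h2 h3 h4
    exact ⟨C, hC⟩
  · exact powers T hT t c₀ κ h1 h2 h3 k hk h
  · have hF : F 1 = 20 / 37 := by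
      unfold F
      norm_num
    have h1 := powers (K := K) ∅ Set.finite_empty 1 0 κ one_pos (by norm_num) hκ 1 le_rfl (by
      rw [hF]
      push_cast
      linarith)
    have e : {I : Ideal (𝓞 K) | ¬ StrongAbc κ I} = {I : Ideal (𝓞 K) | I ^ 1 ∈ Bad ∅ 1 0 κ} := by
      ext I
      simp only [pow_one]
      constructor
      · intro hI
        have hI' : ¬ StrongAbc κ I := hI
        unfold StrongAbc at hI'
        push Not at hI'
        obtain ⟨x, a1, a2, a3, a4, a5⟩ := hI'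
        exact ⟨x, a1, a2, a3, a4, by linarith⟩
      · rintro ⟨x, a1, a2, a3, a4, a5⟩ hI
        have := hI x a1 a2 a3 a4
        linarith
    rw [e]
    exact h1
  · obtain ⟨C, -, hC⟩ := bound_radical T hT κ δ hκ hδ
    exact ⟨C, hC⟩
  · exact powers_of_bound _ (2 * κ / 3) (fun δ hδ => bound_radical T hT κ δ hκ hδ) k hk (by
      linarith)

end Pool.Agent.Results.MP_a793bb_nt.AlmostAllParts
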