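import Pool.Agent.H821.MU.Core
import Pool.Agent.Y728.AK.Final

/-!
# The abc points over a number field that share a large divisor with a given ideal

`K` is a number field of degree `d` and `T` a finite set of primes of `K`. For a point
`P = (a : b : c)` over `K` with `a + b + c = 0`, `abc ≠ 0`, let `I(P)` be the set of the primes of `K`
at which the valuations of `a, b, c` are not all equal (for `K = ℚ` and coprime `a, b, c` these are the
prime factors of `abc`), `h(P)` and `rad_T(P)` the height and the radical of the problem (without the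
primes of `T`), and `R(P) = exp (d rad_T (P))`, the product of the norms of the primes of `I(P)` outside
`T`. There is no restriction on the heights of the points.

An ideal `𝔪` all of whose prime factors are in `I(P)` or in `T` satisfies, if it is squarefree, only
the trivial bound `N(𝔪) = O(R(P))`, and in general none. For the divisors of almost all ideals `𝔫` we
prove more. Let `0 < ε ≤ 1`, `η < ε` and `δ > 0`.

1. All ideals `𝔫` of norm at most `X`, apart from `O(X^(1 - η))`, have the property: for every point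
   `P` every divisor `𝔪` of `𝔫` composed of primes in `I(P)` or in `T` has norm
   `N(𝔪) ≤ N(𝔫)^ε R(P)^(2/3)`.
2. In particular (`𝔪 = 𝔫`): let `0 ≤ κ < 3/2`. All ideals `𝔫` of norm at most `X`, apart from
   `O(X^(2 κ / 3 + δ))`, have the property: `R(P) ≥ N(𝔫)^κ` for every point `P` such that all primes
   dividing `𝔫` are in `I(P)` or in `T`; for instance for all abc triples one term of which is
   divisible by a power of `𝔫`.
3. For the points that violate the abc inequality, even with a factor `M < 1`, the exponent can be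
   improved: for every `M > 1/3` there is `ρ < 2/3` such that all ideals `𝔫` of norm at most `X`,
   apart from `O(X^(1 - η))`, have the property: for every point `P` with `h(P) ≥ M rad_T(P)` every
   divisor `𝔪` of `𝔫` composed of primes in `I(P)` or in `T` has norm `N(𝔪) ≤ N(𝔫)^ε R(P)^ρ`.
4. In particular let `0 ≤ κ < 1/ρ`; here `1/ρ > 3/2`. All ideals `𝔫` of norm at most `X`, apart from
   `O(X^(ρ κ + δ))`, have the property: the abc inequality `h(P) < M rad_T(P)` holds for all points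
   `P` with `R(P) < N(𝔫)^κ` such that all primes dividing `𝔫` are in `I(P)` or in `T`.

The points are counted by their radical (`Y728`, exponent `2 / 3`; those with `h(P) ≥ M rad_T(P)` have a
smaller exponent, `Y728.AK`); an ideal `𝔫 = 𝔪 𝔮` that violates 1 for `P` is determined by `P`, by `𝔪`,
for which there are `O(X^δ)` possibilities (Rankin), and by `𝔮` of norm at most
`X^(1 - ε) R(P)^(-2/3)`.
-/

set_option autoImplicit false

namespace Pool.Agent.Results.MP_a793bb_nt.DivisorsOfIdeals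

open NumberField IsDedekindDomain

variable {K : Type} [Field K] [NumberField K]

/-- the height `h(P)` of the point `P` with coordinates `x` -/
noncomputable def height (x : Fin 3 → K) : ℝ :=
  (∑ w : InfinitePlace K, (w.mult : ℝ) * Real.log (max (w (x 0)) (max (w (x 1)) (w (x 2)))) +
    ∑ᶠ v : HeightOneSpectrum (𝓞 K), Real.log
      (max (FinitePlace.mk v (x 0)) (max (FinitePlace.mk v (x 1)) (FinitePlace.mk v (x 2))))) /
    (Module.finrank ℚ K : ℝ)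

/-- `I(P)`: the primes at which the valuations of the coordinates `x` of `P` are not all equal -/
def I (x : Fin 3 → K) : Set (HeightOneSpectrum (𝓞 K)) :=
  {v | ¬ (FinitePlace.mk v (x 0) = FinitePlace.mk v (x 1) ∧
    FinitePlace.mk v (x 1) = FinitePlace.mk v (x 2))}

/-- the radical of the point `P` with coordinates `x`, without the primes of `T`: the sum of
`log N(v) / d` over the primes `v ∉ T` in `I(P)` -/
noncomputable def rad (T : Set (HeightOneSpectrum (𝓞 K))) (x : Fin 3 → K) : ℝ :=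
  (∑ᶠ (v : HeightOneSpectrum (𝓞 K)) (_ : v ∉ T ∧ v ∈ I x),
    Real.log (Ideal.absNorm v.asIdeal : ℝ)) / (Module.finrank ℚ K : ℝ)

/-- `R(P) = exp (d rad_T (P))`, `d` the degree of `K` -/
noncomputable def R (T : Set (HeightOneSpectrum (𝓞 K))) (x : Fin 3 → K) : ℝ :=
  Real.exp ((Module.finrank ℚ K : ℝ) * rad T x)

/-- the coordinates of the points `P = (a : b : c)` over `K` with `a + b + c = 0`, `abc ≠ 0` -/
def Points (K : Type) [Field K] : Set (Fin 3 → K) :=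
  {x | x 0 + x 1 + x 2 = 0 ∧ x 0 * x 1 * x 2 ≠ 0}

/-- those among them with `h(P) ≥ M rad_T(P)` -/
def Violators (T : Set (HeightOneSpectrum (𝓞 K))) (M : ℝ) : Set (Fin 3 → K) :=
  {x | x ∈ Points K ∧ M * rad T x ≤ height x}

/-- all prime factors of the ideal `𝔪` are in `T` or in `I(P)` -/
def Composed (T : Set (HeightOneSpectrum (𝓞 K))) (x : Fin 3 → K) (𝔪 : Ideal (𝓞 K)) : Prop :=
  ∀ v : HeightOneSpectrum (𝓞 K), v.asIdeal ∣ 𝔪 → v ∈ T ∨ v ∈ I x

/-- the ideals `𝔫` of norm at most `X` with a divisor `𝔪` composed of primes in `T` or in `I(P)` for a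
point `P` in `V` such that `N(𝔪) > N(𝔫)^ε R(P)^ρ` -/
def Exceptions (T : Set (HeightOneSpectrum (𝓞 K))) (V : Set (Fin 3 → K)) (ρ ε X : ℝ) :
    Set (Ideal (𝓞 K)) :=
  {𝔫 | 𝔫 ≠ ⊥ ∧ (Ideal.absNorm 𝔫 : ℝ) ≤ X ∧ ∃ x ∈ V, ∃ 𝔪 : Ideal (𝓞 K), 𝔪 ∣ 𝔫 ∧
    Composed T x 𝔪 ∧ (Ideal.absNorm 𝔫 : ℝ) ^ ε * R T x ^ ρ < (Ideal.absNorm 𝔪 : ℝ)}

/-- the ideals `𝔫` of norm at most `X` composed of primes in `T` or in `I(P)` for a point `P` in `V`
with `R(P) < N(𝔫)^κ` -/
def LowMultiples (T : Set (HeightOneSpectrum (𝓞 K))) (V : Set (Fin 3 → K)) (κ X : ℝ) :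
    Set (Ideal (𝓞 K)) :=
  {𝔫 | 𝔫 ≠ ⊥ ∧ (Ideal.absNorm 𝔫 : ℝ) ≤ X ∧ ∃ x ∈ V, Composed T x 𝔫 ∧
    R T x < (Ideal.absNorm 𝔫 : ℝ) ^ κ}

/-- the bounds for the two exceptional sets, for the points of `V` and the exponent `ρ` -/
def Bounds (T : Set (HeightOneSpectrum (𝓞 K))) (V : Set (Fin 3 → K)) (ρ : ℝ) : Prop :=
  (∀ ε η : ℝ, 0 < ε → ε ≤ 1 → η < ε → ∃ C : ℝ, ∀ X : ℝ, 1 ≤ X →
    (Exceptions T V ρ ε X).Finite ∧ ((Exceptions T V ρ ε X).ncard : ℝ) ≤ C * X ^ (1 - η)) ∧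
  (∀ κ δ : ℝ, 0 ≤ κ → κ < 1 / ρ → 0 < δ → ∃ C : ℝ, ∀ X : ℝ, 1 ≤ X →
    (LowMultiples T V κ X).Finite ∧ ((LowMultiples T V κ X).ncard : ℝ) ≤ C * X ^ (ρ * κ + δ))

open Pool.Agent.H691R3 Pool.Agent.TH876.Loc Pool.Agent.H821.MU

theorem exceptions_count (K : Type) [Field K] [NumberField K]
    (T' : Finset (HeightOneSpectrum (𝓞 K))) (V : Set (Fin 3 → K)) (Pt' : K → Prop)
    (hV : ∀ x ∈ V, x ∈ Points K ∧ Pt' (x 0 / x 1)) {ρ : ℝ} (hρ : 0 < ρ)
    (hmain : ∀ ε : ℝ, 0 < ε → ∃ D : ℝ, 0 < D ∧ ∀ X : ℝ, 1 ≤ X → ∀ F : Finset K,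
      (∀ x ∈ F, Pt' x ∧ ∀ S : Finset (HeightOneSpectrum (𝓞 K)),
        (∀ v, v ∈ S ↔ v ∈ sp x ∧ v ∉ T') → ∏ v ∈ S, N v ≤ X) → (F.card : ℝ) ≤ D * X ^ (ρ + ε))
    {ε η : ℝ} (hε0 : 0 < ε) (hε1 : ε ≤ 1) (hη : η < ε) : ∃ C : ℝ, ∀ X : ℝ, 1 ≤ X →
      (Exceptions (T' : Set (HeightOneSpectrum (𝓞 K))) V ρ ε X).Finite ∧
      ((Exceptions (T' : Set (HeightOneSpectrum (𝓞 K))) V ρ ε X).ncard : ℝ) ≤
        C * X ^ (1 - η) := by
  classical
  obtain ⟨C, hC, h⟩ := core K (fun y => sp y) Pt' T' hρ hmain hε0 hε1 hη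
  refine ⟨C, fun X hX => ?_⟩
  have hfin : (Exceptions (T' : Set (HeightOneSpectrum (𝓞 K))) V ρ ε X).Finite := by
    refine (Ideal.finite_setOfPred_absNorm_le (S := 𝓞 K) ⌊X⌋₊).subset ?_
    rintro I ⟨_, hI, _⟩
    exact Nat.le_floor hI
  refine ⟨hfin, ?_⟩
  rw [Set.ncard_eq_toFinset_card _ hfin]
  refine h X hX _ ?_
  intro I hI
  rw [Set.Finite.mem_toFinset] at hI
  obtain ⟨h1, h2, x, hx, J, hJ, hJc, hlt⟩ := hI
  obtain ⟨⟨hs, hne⟩, hpt⟩ := hV x hx
  refine ⟨h1, h2, x 0 / x 1, hpt, J, hJ, ?_, ?_⟩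
  · intro v hv
    rcases hJc v hv with h3 | h3
    · exact Or.inl h3
    · exact Or.inr ((sp_of_triple hs hne v).2 h3)
  · intro r hr
    have h3 := hr (sp (x 0 / x 1) \ T') fun v => by rw [Finset.mem_sdiff]
    have h4 : R (T' : Set (HeightOneSpectrum (𝓞 K))) x = r := by
      rw [h3]
      exact Pool.Agent.Y728.exp_radT T' hs hne
    rw [← h4]
    exact hlt

theorem bounds_of (K : Type) [Field K] [NumberField K]
    (T : Set (HeightOneSpectrum (𝓞 K))) (V : Set (Fin 3 → K)) {ρ : ℝ} (hρ : 0 < ρ)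
    (h : ∀ ε η : ℝ, 0 < ε → ε ≤ 1 → η < ε → ∃ C : ℝ, ∀ X : ℝ, 1 ≤ X →
      (Exceptions T V ρ ε X).Finite ∧ ((Exceptions T V ρ ε X).ncard : ℝ) ≤ C * X ^ (1 - η)) :
    Bounds T V ρ := by
  refine ⟨h, fun κ δ h1 h2 h3 => ?_⟩
  have h2' : ρ * κ < 1 := by
    rw [lt_div_iff₀ hρ] at h2
    linarith
  have h20 : 0 ≤ ρ * κ := by positivity
  obtain ⟨C, hC⟩ := h (1 - ρ * κ) (1 - ρ * κ - δ) (by linarith) (by linarith) (by linarith)
  refine ⟨C, fun X hX => ?_⟩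
  obtain ⟨hf, hc⟩ := hC X hX
  have hsub : LowMultiples T V κ X ⊆ Exceptions T V ρ (1 - ρ * κ) X := by
    rintro 𝔫 ⟨g1, g2, x, hx, hcomp, hlt⟩
    refine ⟨g1, g2, x, hx, 𝔫, dvd_rfl, hcomp, ?_⟩
    have hn : (1 : ℝ) ≤ Ideal.absNorm 𝔫 := norm_ge_one g1
    have hn0 : (0 : ℝ) < Ideal.absNorm 𝔫 := by linarith
    have hR : 0 < R T x := Real.exp_pos _
    have h4 : R T x ^ ρ < (Ideal.absNorm 𝔫 : ℝ) ^ (ρ * κ) := by
      have h5 := Real.rpow_lt_rpow hR.le hlt hρ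
      rw [← Real.rpow_mul hn0.le] at h5
      rwa [mul_comm κ ρ] at h5
    have h7 : (Ideal.absNorm 𝔫 : ℝ) ^ (1 - ρ * κ) * (Ideal.absNorm 𝔫 : ℝ) ^ (ρ * κ) =
        Ideal.absNorm 𝔫 := by
      rw [← Real.rpow_add hn0]
      have : 1 - ρ * κ + ρ * κ = 1 := by ring
      rw [this, Real.rpow_one]
    calc (Ideal.absNorm 𝔫 : ℝ) ^ (1 - ρ * κ) * R T x ^ ρ <
        (Ideal.absNorm 𝔫 : ℝ) ^ (1 - ρ * κ) * (Ideal.absNorm 𝔫 : ℝ) ^ (ρ * κ) :=
          mul_lt_mul_of_pos_left h4 (Real.rpow_pos_of_pos hn0 _)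
      _ = Ideal.absNorm 𝔫 := h7
  refine ⟨hf.subset hsub, ?_⟩
  have h8 : ((LowMultiples T V κ X).ncard : ℝ) ≤
      ((Exceptions T V ρ (1 - ρ * κ) X).ncard : ℝ) := by
    exact_mod_cast Set.ncard_le_ncard hsub hf
  refine h8.trans (hc.trans (le_of_eq ?_))
  have h9 : 1 - (1 - ρ * κ - δ) = ρ * κ + δ := by ring
  rw [h9]

open Classical in
theorem point_count (K : Type) [Field K] [NumberField K] (T : Finset (HeightOneSpectrum (𝓞 K)))
    (ε : ℝ) (hε : 0 < ε) : ∃ D : ℝ, 0 < D ∧ ∀ X : ℝ, 1 ≤ X → ∀ F : Finset K,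
      (∀ x ∈ F, Pt x ∧ ∀ S : Finset (HeightOneSpectrum (𝓞 K)),
        (∀ v, v ∈ S ↔ v ∈ sp x ∧ v ∉ T) → ∏ v ∈ S, N v ≤ X) →
      (F.card : ℝ) ≤ D * X ^ (2 / 3 + ε) := by
  obtain ⟨D, hD, h⟩ := Pool.Agent.Y728.mainK K ε hε
  have hQ : 1 ≤ nn T := one_le_nn T
  refine ⟨D * nn T ^ (2 / 3 + ε), by positivity, fun X hX F hF => ?_⟩
  have h1 := h (nn T * X) (by nlinarith) F fun x hx => ⟨(hF x hx).1, ?_⟩
  · refine h1.trans (le_of_eq ?_)
    rw [Real.mul_rpow (by linarith) (by linarith)]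
    ring
  · refine (Pool.Agent.Y728.nn_le_mul (sp x) T).trans ?_
    refine mul_le_mul_of_nonneg_left ?_ (by linarith)
    exact (hF x hx).2 (sp x \ T) fun v => by rw [Finset.mem_sdiff]

open Classical in
theorem violator_count (K : Type) [Field K] [NumberField K]
    (T : Finset (HeightOneSpectrum (𝓞 K))) {M : ℝ} (hM : 1 / 3 < M) : ∃ ρ : ℝ, 0 < ρ ∧ ρ < 2 / 3 ∧
    ∀ ε : ℝ, 0 < ε → ∃ D : ℝ, 0 < D ∧ ∀ X : ℝ, 1 ≤ X → ∀ F : Finset K,
      (∀ x ∈ F, (Pt x ∧ M * Real.log (nn (sp x \ T)) ≤ hgt x) ∧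
        ∀ S : Finset (HeightOneSpectrum (𝓞 K)),
        (∀ v, v ∈ S ↔ v ∈ sp x ∧ v ∉ T) → ∏ v ∈ S, N v ≤ X) →
      (F.card : ℝ) ≤ D * X ^ (ρ + ε) := by
  obtain ⟨ν, hν, C, hC, h⟩ :=
    Pool.Agent.Y728.AK.exc_aff K (Pool.Agent.Y728.AK.almost_allK K) T hM
  refine ⟨max (2 / 3 - ν) (1 / 3), lt_max_of_lt_right (by norm_num),
    max_lt (by linarith) (by norm_num), fun ε hε => ⟨C, hC, fun X hX F hF => ?_⟩⟩
  refine (h X hX F fun x hx => ?_).trans ?_
  · obtain ⟨⟨h1, h2⟩, h3⟩ := hF x hx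
    exact ⟨h1, h3 (sp x \ T) (fun v => by rw [Finset.mem_sdiff]), h2⟩
  · refine mul_le_mul_of_nonneg_left ?_ hC.le
    refine Real.rpow_le_rpow_of_exponent_le hX ?_
    linarith [le_max_left (2 / 3 - ν) (1 / 3 : ℝ)]

theorem violators_pt (K : Type) [Field K] [NumberField K]
    (T : Finset (HeightOneSpectrum (𝓞 K))) (M : ℝ) (x : Fin 3 → K)
    (hx : x ∈ Violators (T : Set (HeightOneSpectrum (𝓞 K))) M) : x ∈ Points K ∧
      ∀ S : Finset (HeightOneSpectrum (𝓞 K)), (∀ v, v ∈ S ↔ v ∈ sp (x 0 / x 1) ∧ v ∉ T) →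
        Pt (x 0 / x 1) ∧ M * Real.log (nn S) ≤ hgt (x 0 / x 1) := by
  classical
  obtain ⟨⟨hs, hne⟩, hM⟩ := hx
  have hdpos : (0 : ℝ) < (Module.finrank ℚ K : ℝ) := by exact_mod_cast Module.finrank_pos
  refine ⟨⟨hs, hne⟩, fun S hS => ⟨pt_of_triple hs hne, ?_⟩⟩
  have hS' : S = sp (x 0 / x 1) \ T := by
    ext v
    rw [hS, Finset.mem_sdiff]
  rw [hS', ← Pool.Agent.Y728.AK.height3_eq hs hne, ← Pool.Agent.Y728.exp_radT T hs hne,
    Real.log_exp]
  have h1 := mul_le_mul_of_nonneg_left hM hdpos.le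
  have h2 : Pool.Agent.Y728.radT (T : Set (HeightOneSpectrum (𝓞 K))) x =
      rad (T : Set (HeightOneSpectrum (𝓞 K))) x := rfl
  have h3 : Pool.Agent.Y728.AK.height3 x = height x := rfl
  rw [h2, h3]
  linarith

/-- **abc points sharing a divisor with a given ideal.** Let `K` be a number field and `T` a finite
set of primes of `K`.
(1) `Bounds` holds for all points `P = (a : b : c)` over `K` with `a + b + c = 0`, `abc ≠ 0`, with the
exponent `2/3`: for `0 < ε ≤ 1`, `η < ε`, all but `O(X^(1 - η))` of the ideals `𝔫` of norm at most `X`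
have the property that `N(𝔪) ≤ N(𝔫)^ε R(P)^(2/3)` for all `P` and all divisors `𝔪` of `𝔫` composed of
primes in `I(P)` or in `T`; and for `0 ≤ κ < 3/2`, `δ > 0` all but `O(X^(2 κ / 3 + δ))` of them have
the property that `R(P) ≥ N(𝔫)^κ` for all `P` such that all prime factors of `𝔫` are in `I(P)` or in
`T`.
(2) For every `M > 1/3` there is `ρ < 2/3` such that the same holds with `ρ` in place of `2/3` for the
points with `h(P) ≥ M rad_T(P)`. -/
theorem result : ∀ (K : Type) [Field K] [NumberField K] (T : Set (HeightOneSpectrum (𝓞 K))),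
    T.Finite → Bounds T (Points K) (2 / 3) ∧
      ∀ M : ℝ, 1 / 3 < M → ∃ ρ : ℝ, 0 < ρ ∧ ρ < 2 / 3 ∧ Bounds T (Violators T M) ρ := by
  intro K _ _ T hT
  classical
  obtain ⟨T', rfl⟩ : ∃ T' : Finset (HeightOneSpectrum (𝓞 K)),
      T = (T' : Set (HeightOneSpectrum (𝓞 K))) := ⟨hT.toFinset, by simp⟩
  refine ⟨bounds_of K _ _ (by norm_num) fun ε η h1 h2 h3 =>
    exceptions_count K T' _ Pt (fun x hx => ⟨hx, pt_of_triple hx.1 hx.2⟩) (by norm_num)
      (point_count K T') h1 h2 h3, fun M hM => ?_⟩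
  obtain ⟨ρ, hρ0, hρ1, hρ⟩ := violator_count K T' hM
  refine ⟨ρ, hρ0, hρ1, bounds_of K _ _ hρ0 fun ε η h1 h2 h3 =>
    exceptions_count K T' _ (fun y => Pt y ∧ M * Real.log (nn (sp y \ T')) ≤ hgt y)
      (fun x hx => ?_) hρ0 hρ h1 h2 h3⟩
  obtain ⟨g1, g2⟩ := violators_pt K T' M x hx
  exact ⟨g1, g2 (sp (x 0 / x 1) \ T') fun v => by rw [Finset.mem_sdiff]⟩

end Pool.Agent.Results.MP_a793bb_nt.DivisorsOfIdeals
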