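import Pool.Agent.Helper932MA.Dim
import Pool.Agent.TH876.GR.Scale
import Pool.Agent.TH876.GR.Small
import Pool.Agent.TH876.GR.Main
import Pool.Agent.TH876.GR.Side
import Pool.Agent.TH876.GR.Fin

/-!
# The abc inequality for finite sets of points, at the algebraic integers near the multiples
# `lam n • x` of almost every point `x` of Minkowski space

`K` is a number field of degree `d`, `a 0, ..., a (q - 1)` are `q ≥ 2` different elements of `K`.
For an algebraic integer `y` the truncated counting function relative to the `q + 1` points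
`a 0, ..., a (q - 1), ∞` is that relative to the `q` finite points, and the conjecture says that it
is at least `(q - 1 - ε) h(y) - C`. Let `lam n ≥ 1` be any sequence such that the sum of the
`lam n ^ (-δ)` converges for all `δ > 0` (for example `10 ^ n`). For the points `x` of Minkowski
space the algebraic integers `y` with `‖y - lam n • x‖ ≤ A * lam n ^ (1 - τ)` are considered. The
points `x` for which infinitely many of them violate `N_S(a, y) > t h(y) + c`, for some finite set
`S` of primes, `A` and `c`, form a set of Hausdorff dimension at most `d t / (q τ)`; for almost all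
`x` there are only finitely many for all `t < q τ`. For `a 0 = 0`, `a 1 = -1` the counting function
with `S = ∅` is the radical of the point `(y : 1 : -y - 1)` of the line `a + b + c = 0`.
-/

set_option autoImplicit false

namespace Pool.Agent.Results.MP_a793bb_nt.IntegersNearMultiples

open NumberField IsDedekindDomain MeasureTheory
open scoped Classical

variable {K : Type} [Field K] [NumberField K]

/-- the absolute logarithmic height of `y` (the height of Mathlib is relative to `K`) -/
noncomputable def height (y : K) : ℝ := Height.logHeight₁ y / (Module.finrank ℚ K : ℝ)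

/-- the truncated counting function of `y` relative to the points `a 0, ..., a (q - 1)`:
`1 / [K : ℚ]` times the sum of `log N(v)` over the primes `v` outside `S` with `y ≡ a i` modulo `v`
for some `i`; each prime is counted once -/
noncomputable def counting (S : Set (HeightOneSpectrum (𝓞 K))) {q : ℕ} (a : Fin q → K) (y : K) : ℝ :=
  (∑ᶠ v ∈ {v : HeightOneSpectrum (𝓞 K) | v ∉ S ∧ ∃ i, v.valuation K (y - a i) < 1},
    Real.log (Ideal.absNorm v.asIdeal : ℝ)) / (Module.finrank ℚ K : ℝ)

/-- the pairs `(n, y)` of a natural number `n` and an algebraic integer `y`, different from the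
`a i`, at distance at most `A * lam n ^ (1 - τ)` from `lam n • x` in Minkowski space (with the
maximum norm), with `N_S(a, y) ≤ t h(y) + c` -/
def Exceptions {q : ℕ} (a : Fin q → K) (lam : ℕ → ℝ) (τ t : ℝ)
    (S : Set (HeightOneSpectrum (𝓞 K))) (A c : ℝ) (x : mixedEmbedding.mixedSpace K) :
    Set (ℕ × 𝓞 K) :=
  {p | ‖mixedEmbedding K (p.2 : K) - lam p.1 • x‖ ≤ A * lam p.1 ^ (1 - τ) ∧
    (∀ i, (p.2 : K) ≠ a i) ∧ counting S a (p.2 : K) ≤ t * height (p.2 : K) + c}

theorem hcount (K : Type) [Field K] [NumberField K] : Pool.Agent.Helper932MA.HCount K :=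
  fun S hS q hq a ha ε hε => Pool.Agent.TH876.GR.final K
    (fun c hc => Pool.Agent.TH876.GR.mainBound K (1 / 2) c (by norm_num) (by norm_num) hc
      (Pool.Agent.TH876.GR.scaleBound K (1 / 2) c (by norm_num) (by norm_num) hc)
      (Pool.Agent.TH876.GR.smallBound K (1 / 2) c (by norm_num) hc))
    (fun S0 => Pool.Agent.TH876.GR.adm_of_side K S0) S hS q hq a ha ε hε

/-- Let `K` be a number field of degree `d`, `a 0, ..., a (q - 1)` different elements of `K`,
`q ≥ 2`, `τ > 0`, and let `lam n ≥ 1` be real numbers such that the sum of the `lam n ^ (-δ)`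
converges for all `δ > 0`.
(1) For every `t ≥ 0` the points `x` of Minkowski space such that for some finite set `S` of primes
and some real numbers `A`, `c` there are infinitely many pairs `(n, y)`, `y` an algebraic integer of
`K`, with `‖y - lam n • x‖ ≤ A * lam n ^ (1 - τ)` and `N_S(a, y) ≤ t h(y) + c`, form a set of
Hausdorff dimension at most `d t / (q τ)`.
(2) For almost all points `x` of Minkowski space there are only finitely many such pairs, for all
`t < q τ`, all `S`, `A` and `c`. -/
theorem result (K : Type) [Field K] [NumberField K] (q : ℕ) (hq : 2 ≤ q) (a : Fin q → K)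
    (ha : Function.Injective a) (lam : ℕ → ℝ) (h1 : ∀ n, 1 ≤ lam n)
    (hlam : ∀ δ : ℝ, 0 < δ → Summable fun n => lam n ^ (-δ)) (τ : ℝ) (hτ : 0 < τ) :
    (∀ t : ℝ, 0 ≤ t →
      dimH {x : mixedEmbedding.mixedSpace K | ∃ S : Set (HeightOneSpectrum (𝓞 K)), S.Finite ∧
        ∃ A c : ℝ, (Exceptions a lam τ t S A c x).Infinite} ≤
      ENNReal.ofReal ((Module.finrank ℚ K : ℝ) * t / (q * τ))) ∧
    ∀ᵐ x : mixedEmbedding.mixedSpace K, ∀ t : ℝ, t < q * τ →
      ∀ S : Set (HeightOneSpectrum (𝓞 K)), S.Finite → ∀ A c : ℝ,
        (Exceptions a lam τ t S A c x).Finite :=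
  ⟨fun _ ht => Pool.Agent.Helper932MA.dimH_bad (hcount K) hq a ha lam h1 hlam hτ ht,
    Pool.Agent.Helper932MA.ae_bad (hcount K) hq a ha lam h1 hlam hτ⟩

end Pool.Agent.Results.MP_a793bb_nt.IntegersNearMultiples
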